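import Pool.Agent.Helper50.AV.P2

/-!
Gradings of the orthogonal Lie algebras with degrees `-1`, `0`, `1`.
-/

set_option linter.unusedSimpArgs false
set_option linter.unusedSectionVars false
set_option linter.unusedVariables false

open Module

namespace AV

open MTP

variable {K : Type*} [Field K] {W : Type*} [AddCommGroup W] [Module K W]

namespace P2

lemma finrank_ker_mul [FiniteDimensional K W] (f g : Module.End K W) :
    finrank K (LinearMap.ker (f * g)) ≤ finrank K (LinearMap.ker f) + finrank K (LinearMap.ker g) := by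
  have h1 : LinearMap.ker (f * g) = (LinearMap.ker f).comap g := rfl
  have h2 := LinearMap.finrank_range_add_finrank_ker (g.domRestrict (LinearMap.ker (f * g)))
  have h3 : finrank K (LinearMap.range (g.domRestrict (LinearMap.ker (f * g)))) ≤
      finrank K (LinearMap.ker f) := by
    apply Submodule.finrank_mono
    rintro _ ⟨⟨v, hv⟩, rfl⟩
    exact hv
  have h4 : finrank K (LinearMap.ker (g.domRestrict (LinearMap.ker (f * g)))) ≤
      finrank K (LinearMap.ker g) := by
    have : (LinearMap.ker (g.domRestrict (LinearMap.ker (f * g)))).map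
        (LinearMap.ker (f * g)).subtype ≤ LinearMap.ker g := by
      rintro _ ⟨⟨v, hv⟩, hv2, rfl⟩
      exact hv2
    calc _ = finrank K ((LinearMap.ker (g.domRestrict (LinearMap.ker (f * g)))).map
        (LinearMap.ker (f * g)).subtype) := LinearEquiv.finrank_eq
          (Submodule.equivMapOfInjective _ (Submodule.subtype_injective _) _)
      _ ≤ _ := Submodule.finrank_mono this
  omega

/-- A subspace of dimension at least two contains a vector outside a given line; two operators
with images in two different lines. -/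
lemma exists_pair [FiniteDimensional K W] {U : Submodule K W} (hU : 2 ≤ finrank K U) :
    ∃ w ∈ U, ∃ w' ∈ U, w ≠ 0 ∧ ∀ t : K, w' ≠ t • w := by
  obtain ⟨w, hw, hw0⟩ := Submodule.exists_mem_ne_zero_of_ne_bot (p := U) (by
    intro h; rw [h, finrank_bot] at hU; omega)
  refine ⟨w, hw, ?_⟩
  by_contra hcon
  push Not at hcon
  have hle : U ≤ Submodule.span K {w} := by
    intro w' hw'
    obtain ⟨t, ht⟩ := hcon w' hw' hw0
    rw [Submodule.mem_span_singleton]
    exact ⟨t, ht.symm⟩
  have := Submodule.finrank_mono hle
  have h2 := finrank_span_le_card (R := K) ({w} : Set W)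
  simp at h2
  omega

end P2

open P2

variable [IsAlgClosed K] [CharZero K] [FiniteDimensional K W] {b : LinearMap.BilinForm K W}

theorem grd_so (hb : b.Nondegenerate) (ha : ∀ v w, b v w = b w v) (hd : 5 ≤ finrank K W)
    {h : Module.End K W} (hh : IsSk b h) (h0 : h ≠ 0) (hg : Grd (skw b) h) :
    (∃ P : Module.End K W, P * P = P ∧ h = P - (2 : K)⁻¹ • 1) ∨
      (h * h * h = h ∧ MTP.rk h = 2) := by
  have hnt : Nontrivial W := by
    by_contra hcon
    rw [not_nontrivial_iff_subsingleton] at hcon
    exact h0 (LinearMap.ext fun v => Subsingleton.elim _ _)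
  have hten : ∀ v w, ten b v w - ten b w v ∈ skw b := by
    intro v w x y
    simp only [LinearMap.sub_apply, ten_apply, map_smul, map_sub, LinearMap.smul_apply,
      smul_eq_mul]
    rw [ha x v, ha x w]
    ring
  -- the polynomial `F_μ`
  set F : K → Module.End K W := fun μ => (h + μ • 1) * ((h + (μ - 1) • 1) * (h + (μ + 1) • 1))
    with hF
  have key : ∀ (w : W) (μ : K), w ≠ 0 → h w = μ • w → ∀ v, ∃ t : K, F μ v = t • w := by
    intro w μ hw hμ v
    have e1 : ∀ u, b w u • F μ v = b (F μ v) u • w := by
      intro u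
      have e := LinearMap.congr_fun (grd_ad hg (hten v w)) u
      simp only [ad_ten hh, ad_add, ad_sub, LinearMap.add_apply, LinearMap.sub_apply, ten_apply,
        hμ, map_smul, LinearMap.smul_apply, smul_eq_mul, smul_smul] at e
      have e2 : F μ v = h (h (h v)) + (3 * μ) • h (h v) + (3 * μ * μ - 1) • h v +
          (μ * (μ - 1) * (μ + 1)) • v := by
        simp only [hF, Module.End.mul_apply, LinearMap.add_apply, LinearMap.smul_apply,
          Module.End.one_apply, map_add, map_smul]
        module
      rw [e2]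
      simp only [map_add, map_smul, LinearMap.add_apply, LinearMap.smul_apply, smul_eq_mul]
      rw [← sub_eq_zero] at e ⊢
      rw [← e]
      module
    obtain ⟨u, hu⟩ : ∃ u, b w u ≠ 0 := by
      by_contra hcon
      push Not at hcon
      exact hw (hb.1 _ hcon)
    refine ⟨(b w u)⁻¹ * b (F μ v) u, ?_⟩
    rw [mul_smul, ← e1 u, smul_smul, inv_mul_cancel₀ hu, one_smul]
  have kerμ : ∀ (μ : K) (w : W), w ∈ LinearMap.ker (h + (-μ) • 1) ↔ h w = μ • w := by
    intro μ w
    rw [LinearMap.mem_ker, LinearMap.add_apply, LinearMap.smul_apply, Module.End.one_apply,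
      neg_smul, ← sub_eq_add_neg, sub_eq_zero]
  -- a multiple eigenvalue kills `F_μ`
  have Fzero : ∀ μ : K, 2 ≤ finrank K (LinearMap.ker (h + (-μ) • 1)) → F μ = 0 ∧
      ∃ w, w ≠ 0 ∧ h w = μ • w := by
    intro μ hμ
    obtain ⟨w, hw, w', hw', hw0, hne⟩ := exists_pair hμ
    rw [kerμ] at hw hw'
    have hw'0 : w' ≠ 0 := by
      intro h1; exact hne 0 (by rw [h1, zero_smul])
    refine ⟨?_, w, hw0, hw⟩
    ext v
    obtain ⟨t, ht⟩ := key w μ hw0 hw v
    obtain ⟨s, hs⟩ := key w' μ hw'0 hw' v
    rw [LinearMap.zero_apply]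
    by_cases hs0 : s = 0
    · rw [hs, hs0, zero_smul]
    · exfalso
      apply hne (s⁻¹ * t)
      rw [mul_smul, ← ht, hs, smul_smul, inv_mul_cancel₀ hs0, one_smul]
  -- the adjoint
  have hadj : ∀ μ : K, finrank K (LinearMap.ker (h + (-μ) • 1)) =
      finrank K (LinearMap.ker (h + (-(-μ)) • 1)) := by
    intro μ
    have h1 : rk (h + (-μ) • (1 : Module.End K W)) = rk (-(h + (-(-μ)) • (1 : Module.End K W))) := by
      apply rk_adjoint hb
      intro v w
      simp only [LinearMap.add_apply, LinearMap.smul_apply, Module.End.one_apply, map_add,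
        map_smul, LinearMap.neg_apply, map_neg, smul_eq_mul, hh v w]
      ring
    rw [rk_neg] at h1
    have h2 := LinearMap.finrank_range_add_finrank_ker (h + (-μ) • (1 : Module.End K W))
    have h3 := LinearMap.finrank_range_add_finrank_ker (h + (-(-μ)) • (1 : Module.End K W))
    unfold rk at h1
    omega
  -- nonzero multiple eigenvalues
  have hnz : ∀ μ : K, μ ≠ 0 → 2 ≤ finrank K (LinearMap.ker (h + (-μ) • 1)) →
      h * h = (4 : K)⁻¹ • 1 := by
    intro μ hμ h2
    obtain ⟨hF1, w, hw0, hw⟩ := Fzero μ h2
    obtain ⟨hF2, -⟩ := Fzero (-μ) (by rw [← hadj]; exact h2)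
    have hμ2 : μ * μ = (4 : K)⁻¹ := by
      have e := LinearMap.congr_fun hF1 w
      simp only [hF, Module.End.mul_apply, LinearMap.add_apply, LinearMap.smul_apply,
        Module.End.one_apply, map_add, map_smul, hw, LinearMap.zero_apply, smul_smul,
        ← add_smul] at e
      have e2 := (smul_eq_zero.mp e).resolve_right hw0
      have e3 : μ * (8 * (μ * μ) - 2) = 0 := by linear_combination e2
      have e4 := (mul_eq_zero.mp e3).resolve_left hμ
      apply eq_inv_of_mul_eq_one_right
      linear_combination e4 / 2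
    ext v
    have e1 := LinearMap.congr_fun hF1 v
    have e2 := LinearMap.congr_fun hF2 v
    simp only [hF, Module.End.mul_apply, LinearMap.add_apply, LinearMap.smul_apply,
      Module.End.one_apply, map_add, map_smul, LinearMap.zero_apply] at e1 e2
    rw [Module.End.mul_apply, LinearMap.smul_apply, Module.End.one_apply]
    have e3 : (6 * μ) • h (h v) + (2 * μ * (μ * μ - 1)) • v = 0 := by
      have e5 := (congrArg₂ (fun x y => x - y) e1 e2).trans (sub_self (0 : W))
      rw [← e5]
      module
    rw [hμ2] at e3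
    have h6 : (6 * μ) ≠ 0 := mul_ne_zero (by norm_num) hμ
    have e4 : (6 * μ) • (h (h v) - (4 : K)⁻¹ • v) = 0 := by
      rw [← e3, smul_sub, smul_smul]
      module
    exact sub_eq_zero.mp ((smul_eq_zero.mp e4).resolve_left h6)
  -- existence of a multiple eigenvalue
  obtain ⟨ν, hν⟩ : ∃ ν : K, 2 ≤ finrank K (LinearMap.ker (h + (-ν) • 1)) := by
    by_contra hcon
    push Not at hcon
    have hone : ∀ ν : K, finrank K (LinearMap.ker (h + ν • (1 : Module.End K W))) ≤ 1 := by
      intro ν
      have := hcon (-ν)
      rw [neg_neg] at this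
      omega
    obtain ⟨μ, hμ⟩ := Module.End.exists_eigenvalue h
    obtain ⟨w, hw⟩ := hμ.exists_hasEigenvector
    have hz : (h + (-μ) • 1) * F μ = 0 := by
      ext v
      obtain ⟨t, ht⟩ := key w μ hw.2 hw.apply_eq_smul v
      rw [Module.End.mul_apply, ht, map_smul]
      have : (h + (-μ) • (1 : Module.End K W)) w = 0 := (kerμ μ w).mpr hw.apply_eq_smul
      rw [this, smul_zero]; rfl
    have e1 : finrank K (LinearMap.ker ((h + (-μ) • 1) * F μ)) = finrank K W := by
      rw [hz, LinearMap.ker_zero, finrank_top]
    have e2 := finrank_ker_mul (h + (-μ) • 1) (F μ)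
    have e3 := finrank_ker_mul (h + μ • 1) ((h + (μ - 1) • 1) * (h + (μ + 1) • 1))
    have e4 := finrank_ker_mul (h + (μ - 1) • 1) (h + (μ + 1) • 1)
    have f1 := hone (-μ)
    have f2 := hone μ
    have f3 := hone (μ - 1)
    have f4 := hone (μ + 1)
    have e3' : finrank K (LinearMap.ker (F μ)) ≤ finrank K (LinearMap.ker (h + μ • (1 : Module.End K W))) +
      finrank K (LinearMap.ker ((h + (μ - 1) • (1 : Module.End K W)) * (h + (μ + 1) • 1))) := e3
    omega
  by_cases hν0 : ν = 0
  · right
    subst hν0
    obtain ⟨hF0, -⟩ := Fzero 0 hν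
    have h3 : h * h * h = h := by
      ext v
      have e := LinearMap.congr_fun hF0 v
      simp only [hF, Module.End.mul_apply, LinearMap.add_apply, LinearMap.smul_apply,
        Module.End.one_apply, map_add, map_smul, LinearMap.zero_apply] at e
      rw [Module.End.mul_apply, Module.End.mul_apply, ← sub_eq_zero, ← e]
      module
    refine ⟨h3, ?_⟩
    have h3' : ∀ v, h (h (h v)) = h v := fun v => LinearMap.congr_fun h3 v
    have hle : finrank K (LinearMap.ker (h + (-(1 : K)) • 1)) ≤ 1 := by
      by_contra hcon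
      push Not at hcon
      have h4 := hnz 1 one_ne_zero hcon
      rw [mul_assoc, h4] at h3
      have h5 : (3 : K) • h = 0 := by
        have : (4 : K) • (h * (4 : K)⁻¹ • (1 : Module.End K W)) = (4 : K) • h := by rw [h3]
        rw [mul_smul_comm, mul_one, smul_smul, mul_inv_cancel₀ (by norm_num), one_smul] at this
        have h6 : (3 : K) • h = (4 : K) • h - h := by module
        rw [h6, ← this, sub_self]
      exact h0 ((smul_eq_zero.mp h5).resolve_left (by norm_num))
    have hadj1 := hadj 1
    -- the range is the sum of the two eigenspaces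
    have hr : LinearMap.range h = LinearMap.ker (h + (-(1 : K)) • 1) ⊔
        LinearMap.ker (h + (-(-(1 : K))) • 1) := by
      apply le_antisymm
      · rintro _ ⟨v, rfl⟩
        have e : h v = (2 : K)⁻¹ • (h v + h (h v)) + (2 : K)⁻¹ • (h v - h (h v)) := by
          rw [← smul_add]
          have : h v + h (h v) + (h v - h (h v)) = (2 : K) • h v := by module
          rw [this, smul_smul, inv_mul_cancel₀ two_ne_zero, one_smul]
        rw [e]
        apply Submodule.add_mem_sup
        · apply Submodule.smul_mem
          rw [kerμ, map_add, h3', one_smul, add_comm]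
        · apply Submodule.smul_mem
          rw [kerμ, map_sub, h3', neg_smul, one_smul, neg_sub]
      · rw [sup_le_iff]
        constructor
        · intro v hv
          rw [kerμ, one_smul] at hv
          exact ⟨v, hv⟩
        · intro v hv
          rw [kerμ, neg_smul, one_smul] at hv
          exact ⟨-v, by rw [map_neg, hv, neg_neg]⟩
    have hdis : LinearMap.ker (h + (-(1 : K)) • 1) ⊓ LinearMap.ker (h + (-(-(1 : K))) • 1) = ⊥ := by
      rw [eq_bot_iff]
      rintro v ⟨hv1, hv2⟩
      rw [SetLike.mem_coe, kerμ, one_smul] at hv1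
      rw [SetLike.mem_coe, kerμ, neg_smul, one_smul] at hv2
      rw [Submodule.mem_bot]
      have : (2 : K) • v = 0 := by
        have h5 : (2 : K) • v = v - (-v) := by module
        rw [h5, ← hv2]
        nth_rewrite 1 [← hv1]
        rw [sub_self]
      exact (smul_eq_zero.mp this).resolve_left two_ne_zero
    have hfr := Submodule.finrank_sup_add_finrank_inf_eq (LinearMap.ker (h + (-(1 : K)) • 1))
      (LinearMap.ker (h + (-(-(1 : K))) • 1))
    rw [hdis, ← hr, finrank_bot] at hfr
    have hpos := rk_pos.mpr h0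
    unfold rk at hpos ⊢
    omega
  · left
    have hsq := hnz ν hν0 hν
    refine ⟨h + (2 : K)⁻¹ • 1, ?_, by abel⟩
    have e : (h + (2 : K)⁻¹ • 1) * (h + (2 : K)⁻¹ • 1) = h * h + (2 * (2 : K)⁻¹) • h +
        ((2 : K)⁻¹ * (2 : K)⁻¹) • 1 := by
      simp only [mul_add, add_mul, mul_smul_comm, smul_mul_assoc, mul_one, one_mul]
      module
    rw [e, hsq, mul_inv_cancel₀ two_ne_zero, one_smul, add_right_comm, ← add_smul, add_comm]
    congr 2
    norm_num

end AV
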