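import Pool.Agent.Helper2.AV.PDefs

/-!
Gradings of the classical Lie algebras with degrees `-1`, `0`, `1`.
-/

set_option linter.unusedSimpArgs false
set_option linter.unusedSectionVars false
set_option linter.unusedVariables false

open Module

namespace AV

open MTP

namespace P2

variable {K : Type*} [Field K] {W : Type*} [AddCommGroup W] [Module K W]

/-- The operator `w ↦ b(c, w) a`. -/
def ten (b : LinearMap.BilinForm K W) (a c : W) : Module.End K W := (b c).smulRight a

lemma ten_apply (b : LinearMap.BilinForm K W) (a c w : W) : ten b a c w = b c w • a := rfl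

/-- The bracket with `h`. -/
def ad (h x : Module.End K W) : Module.End K W := h * x - x * h

lemma ad_add (h x y : Module.End K W) : ad h (x + y) = ad h x + ad h y := by
  unfold ad; noncomm_ring

lemma ad_sub (h x y : Module.End K W) : ad h (x - y) = ad h x - ad h y := by
  unfold ad; noncomm_ring

lemma ad_ten {b : LinearMap.BilinForm K W} [FiniteDimensional K W] {h : Module.End K W}
    (hs : IsSk b h) (a c : W) : ad h (ten b a c) = ten b (h a) c + ten b a (h c) := by
  ext w
  have := hs c w
  simp only [ad, LinearMap.sub_apply, LinearMap.add_apply, Module.End.mul_apply, ten_apply,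
    map_smul]
  rw [this]
  module

lemma grd_ad {M : Submodule K (Module.End K W)} {h : Module.End K W} (hg : Grd M h)
    {x : Module.End K W} (hx : x ∈ M) : ad h (ad h (ad h x)) = ad h x := hg x hx

end P2

open P2

variable {K : Type*} [Field K] {W : Type*} [AddCommGroup W] [Module K W]
variable [IsAlgClosed K] [CharZero K] [FiniteDimensional K W] {b : LinearMap.BilinForm K W}

theorem grd_sl {h : Module.End K W} (hh : h ∈ slw K W) (h0 : h ≠ 0) (hg : Grd (slw K W) h) :
    ∃ P : Module.End K W, ∃ c : K, P * P = P ∧ P ≠ 0 ∧ P ≠ 1 ∧ h = P - c • 1 := by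
  have hnt : Nontrivial W := by
    by_contra hcon
    rw [not_nontrivial_iff_subsingleton] at hcon
    exact h0 (LinearMap.ext fun v => Subsingleton.elim _ _)
  have hn0 : (finrank K W : K) ≠ 0 := by
    have : 0 < finrank K W := finrank_pos
    exact_mod_cast this.ne'
  -- the identity holds for all operators
  have hall : ∀ x : Module.End K W, ad h (ad h (ad h x)) = ad h x := by
    intro x
    set t : K := LinearMap.trace K W x / finrank K W with ht
    have hx : x - t • 1 ∈ slw K W := by
      rw [slw, LinearMap.mem_ker, map_sub, map_smul, LinearMap.trace_one, ht, smul_eq_mul,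
        div_mul_cancel₀ _ hn0, sub_self]
    have e : ad h (x - t • 1) = ad h x := by
      unfold ad; simp [mul_sub, sub_mul]
    have := grd_ad hg hx
    rw [e] at this
    exact this
  have key : ∀ (w : W) (μ : K), w ≠ 0 → h w = μ • w →
      (h - μ • 1) * ((h - μ • 1) * (h - μ • 1)) = h - μ • 1 := by
    intro w μ hw hμ
    have e1 : ∀ (f : Module.Dual K W), ad h (LinearMap.smulRight f w) =
        LinearMap.smulRight (- (f.comp (h - μ • 1))) w := by
      intro f
      ext v
      simp only [ad, LinearMap.sub_apply, Module.End.mul_apply, LinearMap.smulRight_apply,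
        map_smul, hμ, LinearMap.neg_apply, LinearMap.comp_apply, LinearMap.smul_apply,
        Module.End.one_apply, map_sub, smul_eq_mul]
      module
    ext v
    rw [← sub_eq_zero, ← forall_dual_apply_eq_zero_iff K]
    intro f
    have h1 := hall (LinearMap.smulRight f w)
    rw [e1, e1, e1] at h1
    have h2 := LinearMap.congr_fun h1 v
    rw [LinearMap.smulRight_apply, LinearMap.smulRight_apply] at h2
    have h3 := smul_left_injective K hw h2
    simp only [LinearMap.neg_apply, LinearMap.comp_apply, neg_neg] at h3
    rw [map_sub, sub_eq_zero]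
    rw [Module.End.mul_apply, Module.End.mul_apply]
    exact neg_injective h3
  obtain ⟨μ, hμ⟩ := Module.End.exists_eigenvalue h
  obtain ⟨w, hw⟩ := hμ.exists_hasEigenvector
  have hw0 : w ≠ 0 := hw.2
  have hwμ : h w = μ • w := hw.apply_eq_smul
  set g := h - μ • 1 with hgdef
  have hg3 : g * (g * g) = g := key w μ hw0 hwμ
  have hgw : g w = 0 := by
    rw [hgdef, LinearMap.sub_apply, hwμ, LinearMap.smul_apply, Module.End.one_apply, sub_self]
  have hh' : h = g + μ • 1 := by rw [hgdef]; abel
  by_cases hc : ∃ u, u ≠ 0 ∧ g u = u
  · obtain ⟨u, hu0, hu⟩ := hc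
    have hu' : h u = (μ + 1) • u := by
      rw [hh', LinearMap.add_apply, hu, LinearMap.smul_apply, Module.End.one_apply, add_smul,
        one_smul, add_comm]
    have k2 := key u (μ + 1) hu0 hu'
    have e : h - (μ + 1) • (1 : Module.End K W) = g - 1 := by
      rw [hgdef, add_smul, one_smul]; abel
    rw [e] at k2
    have e3 : (g - 1) * ((g - 1) * (g - 1)) = g * (g * g) - 3 • (g * g) + 3 • g - 1 := by
      noncomm_ring
    rw [e3, hg3] at k2
    have e4 : (3 : K) • (g * g) = (3 : K) • g := by
      have : (3 : ℕ) • (g * g) = (3 : ℕ) • g := by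
        have h5 : g - 3 • (g * g) + 3 • g - 1 - (g - 1) = 0 := by rw [k2, sub_self]
        have h6 : 3 • g - 3 • (g * g) = 0 := by
          rw [← h5]; abel
        exact (sub_eq_zero.mp h6).symm
      rw [← Nat.cast_smul_eq_nsmul K, ← Nat.cast_smul_eq_nsmul K] at this
      exact_mod_cast this
    have hgg : g * g = g := smul_right_injective _ (three_ne_zero (α := K)) e4
    refine ⟨g, -μ, hgg, ?_, ?_, ?_⟩
    · intro h; rw [h] at hu; exact hu0 hu.symm
    · intro h; rw [h] at hgw; exact hw0 hgw
    · rw [hh', neg_smul, sub_neg_eq_add]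
  · push Not at hc
    have hgg : g * g = - g := by
      have h1 : ∀ v, g (g (g v) + g v) = g (g v) + g v := by
        intro v
        have := LinearMap.congr_fun hg3 v
        simp only [Module.End.mul_apply] at this
        rw [map_add, this, add_comm]
      ext v
      by_contra hne
      apply hc (g (g v) + g v) _ (h1 v)
      intro h2
      apply hne
      rw [Module.End.mul_apply, LinearMap.neg_apply]
      exact eq_neg_of_add_eq_zero_left h2
    refine ⟨1 + g, 1 - μ, ?_, ?_, ?_, ?_⟩
    · have : (1 + g) * (1 + g) = 1 + g + g + g * g := by noncomm_ring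
      rw [this, hgg]; abel
    · intro h
      have := LinearMap.congr_fun h w
      rw [LinearMap.add_apply, hgw, add_zero] at this
      exact hw0 this
    · intro h
      have hg0 : g = 0 := by simpa using h
      rw [hg0, zero_add] at hh'
      rw [slw, LinearMap.mem_ker, hh', map_smul, LinearMap.trace_one, smul_eq_mul] at hh
      have hμ0 := (mul_eq_zero.mp hh).resolve_right hn0
      apply h0
      rw [hh', hμ0, zero_smul]
    · rw [hh', sub_smul, one_smul]; abel

/-- Separating vectors: independent vectors have independent functionals. -/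
lemma P2.exists_sep (hb : b.Nondegenerate) {a c : W} (hac : LinearIndependent K ![a, c]) :
    ∃ w, b a w = 0 ∧ b c w = 1 := by
  by_contra hcon
  push Not at hcon
  -- `b c` vanishes on the kernel of `b a`
  have hker : LinearMap.ker (b a) ≤ LinearMap.ker (b c) := by
    intro w hw
    rw [LinearMap.mem_ker] at hw ⊢
    by_contra hne
    apply hcon ((b c w)⁻¹ • w)
    · rw [map_smul, hw, smul_zero]
    · rw [map_smul, smul_eq_mul, inv_mul_cancel₀ hne]
  have hmem : b c ∈ Submodule.span K {b a} := by
    obtain ⟨t, ht⟩ : ∃ t : K, b c = t • b a := by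
      by_cases ha : b a = 0
      · refine ⟨0, ?_⟩
        rw [zero_smul]
        rw [ha, LinearMap.ker_zero, top_le_iff, LinearMap.ker_eq_top] at hker
        exact hker
      · obtain ⟨u, hu⟩ : ∃ u, b a u ≠ 0 := by
          by_contra h
          push Not at h
          exact ha (LinearMap.ext h)
        refine ⟨b c u * (b a u)⁻¹, ?_⟩
        ext v
        have h1 : v - (b a v * (b a u)⁻¹) • u ∈ LinearMap.ker (b a) := by
          rw [LinearMap.mem_ker, map_sub, map_smul, smul_eq_mul, mul_assoc,
            inv_mul_cancel₀ hu, mul_one, sub_self]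
        have h2 := hker h1
        rw [LinearMap.mem_ker, map_sub, map_smul, sub_eq_zero] at h2
        rw [h2, LinearMap.smul_apply, smul_eq_mul, smul_eq_mul]
        ring
    rw [Submodule.mem_span_singleton]
    exact ⟨t, ht.symm⟩
  obtain ⟨t, ht⟩ := Submodule.mem_span_singleton.mp hmem
  rw [LinearIndependent.pair_iff] at hac
  have h1 : t • a + (-1 : K) • c = 0 := by
    apply hb.1
    intro w
    rw [map_add, map_smul, map_smul, ht]
    simp
  have := (hac t (-1) h1).2
  exact absurd this (by norm_num)

theorem grd_sp (hb : b.Nondegenerate) (ha : b.IsAlt) {h : Module.End K W} (hh : IsSk b h)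
    (h0 : h ≠ 0) (hg : Grd (skw b) h) :
    ∃ P : Module.End K W, P * P = P ∧ h = P - (2 : K)⁻¹ • 1 := by
  have hneg : ∀ v w, b v w = - b w v := fun v w => (ha.neg_eq w v).symm
  have hten : ∀ v, ten b v v ∈ skw b := by
    intro v x y
    rw [ten_apply, ten_apply, map_smul, map_smul, LinearMap.smul_apply, smul_eq_mul, smul_eq_mul,
      hneg x v]
    ring
  have key : ∀ v, h v ≠ 0 → h (h v) = (4 : K)⁻¹ • v := by
    intro v hv
    have e1 : ∀ w, b v w • h (h (h v)) + (3 * b (h v) w) • h (h v) + (3 * b (h (h v)) w) • h v +
        b (h (h (h v))) w • v = b v w • h v + b (h v) w • v := by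
      intro w
      have e := LinearMap.congr_fun (grd_ad hg (hten v)) w
      simp only [ad_ten hh, ad_add, LinearMap.add_apply, ten_apply] at e
      rw [← e]
      module
    by_cases hli : LinearIndependent K ![v, h v]
    · obtain ⟨w, hw1, hw2⟩ := exists_sep hb hli
      have e2 := e1 w
      rw [hw1, hw2, zero_smul, zero_smul, mul_one, one_smul, zero_add, zero_add] at e2
      -- 3 h² v + 3 b(h²v, w) h v + b(h³v,w) v = v
      have e3 : b (h (h v)) w = 0 := by
        have := congrArg (fun z => b z w) e2
        simp only [map_add, map_smul, LinearMap.add_apply, LinearMap.smul_apply, smul_eq_mul, hw1,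
          hw2] at this
        have h6 : (6 : K) * b (h (h v)) w = 0 := by linear_combination this
        exact (mul_eq_zero.mp h6).resolve_left (by norm_num)
      rw [e3, mul_zero, zero_smul, add_zero] at e2
      set l : K := (3 : K)⁻¹ * (1 - b (h (h (h v))) w) with hl
      have e4 : h (h v) = l • v := by
        have h3 : (3 : K) • h (h v) = (1 - b (h (h (h v))) w) • v := by
          rw [sub_smul, one_smul, eq_sub_iff_add_eq]; exact e2
        rw [hl, mul_smul, ← h3, smul_smul, inv_mul_cancel₀ three_ne_zero, one_smul]
      have e5 : (4 * l - 1) • v = 0 := by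
        have := e1 w
        rw [e4, map_smul, hw1, hw2] at this
        simp only [map_smul, LinearMap.smul_apply, smul_eq_mul, hw1, hw2, mul_zero, mul_one,
          zero_smul, zero_add, add_zero, one_smul, smul_smul] at this
        rw [zero_mul, zero_smul, zero_add] at this
        have h7 : (4 * l - 1) • v = ((3 * l) • v + l • v) - v := by module
        rw [h7, this, sub_self]
      have hv0 : v ≠ 0 := by intro h1; rw [h1] at hv; exact hv (map_zero h)
      have e6 := (smul_eq_zero.mp e5).resolve_right hv0
      have e7 : l = (4 : K)⁻¹ := by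
        have h8 : (4 : K) * l = 1 := by linear_combination e6
        exact eq_inv_of_mul_eq_one_right h8
      rw [e4, e7]
    · have hv0 : v ≠ 0 := by intro h1; rw [h1] at hv; exact hv (map_zero h)
      obtain ⟨μ, hμ⟩ : ∃ μ : K, h v = μ • v := by
        rw [LinearIndependent.pair_iff' hv0] at hli
        push Not at hli
        obtain ⟨μ, hμ⟩ := hli
        exact ⟨μ, hμ.symm⟩
      have hμ0 : μ ≠ 0 := by
        intro h1; rw [h1, zero_smul] at hμ; exact hv hμ
      obtain ⟨w, hw⟩ : ∃ w, b v w ≠ 0 := by
        by_contra hcon
        push Not at hcon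
        exact hv0 (hb.1 _ hcon)
      have e2 := e1 w
      simp only [hμ, map_smul, LinearMap.smul_apply, smul_eq_mul, smul_smul, ← add_smul] at e2
      have e3 := smul_left_injective K hv0 e2
      have e4 : (b v w * μ) * (8 * μ * μ - 2) = 0 := by linear_combination e3
      have e5 := (mul_eq_zero.mp e4).resolve_left (mul_ne_zero hw hμ0)
      have e6 : μ * μ = (4 : K)⁻¹ := by
        have h8 : (4 : K) * (μ * μ) = 1 := by linear_combination e5 / 2
        exact eq_inv_of_mul_eq_one_right h8
      rw [hμ, map_smul, hμ, smul_smul, e6]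
  have hsq : h * h = (4 : K)⁻¹ • 1 := by
    obtain ⟨u, hu⟩ : ∃ u, h u ≠ 0 := by
      by_contra hcon
      push Not at hcon
      exact h0 (LinearMap.ext hcon)
    ext v
    rw [Module.End.mul_apply, LinearMap.smul_apply, Module.End.one_apply]
    by_cases hv : h v = 0
    · have h1 := key (u + v) (by rw [map_add, hv, add_zero]; exact hu)
      rw [map_add, hv, add_zero, key u hu, smul_add] at h1
      have h2 : (4 : K)⁻¹ • v = 0 := by
        have := congrArg (fun z => z - (4 : K)⁻¹ • u) h1
        simpa using this.symm
      rw [hv, map_zero, h2]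
    · exact key v hv
  refine ⟨h + (2 : K)⁻¹ • 1, ?_, by abel⟩
  have e : (h + (2 : K)⁻¹ • 1) * (h + (2 : K)⁻¹ • 1) = h * h + (2 * (2 : K)⁻¹) • h +
      ((2 : K)⁻¹ * (2 : K)⁻¹) • 1 := by
    simp only [mul_add, add_mul, mul_smul_comm, smul_mul_assoc, mul_one, one_mul]
    module
  rw [e, hsq, mul_inv_cancel₀ two_ne_zero, one_smul, add_right_comm, ← add_smul, add_comm]
  congr 2
  norm_num

end AV
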